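import Pool.Agent.helper43.KG.Spec

/-!
# Row kg:CNV: the sum of two independent normal variables
-/

set_option autoImplicit false

namespace Pool.Agent.helper43.KG

open Finset MeasureTheory ProbabilityTheory
open scoped ENNReal

/-- scaling of the standard normal law -/
theorem CNV_scale (c : ℝ) : (gaussianReal 0 1).map (fun x => c * x) =
    gaussianReal 0 (.mk (c ^ 2) (sq_nonneg _)) := by
  have h := gaussianReal_map_const_mul (μ := 0) (v := 1) c
  rw [mul_zero, mul_one] at h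
  exact h

theorem CNV_int (c : ℝ) (ψ : ℝ → ℝ) (hψ : Continuous ψ) :
    ∫ x, ψ (c * x) ∂(gaussianReal 0 1) =
      ∫ z, ψ z ∂(gaussianReal 0 (.mk (c ^ 2) (sq_nonneg _))) := by
  rw [← CNV_scale c, integral_map (by fun_prop) hψ.aestronglyMeasurable]

theorem t_cnv (h : GIC) : CNV := by
  intro ϕ C a σ τ hϕ hC
  have hψ : Continuous (fun z => ϕ (a + z)) := hϕ.comp (continuous_const.add continuous_id)
  have hv : NNReal.mk (Real.sqrt (σ ^ 2 + τ ^ 2) ^ 2) (sq_nonneg _) =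
      NNReal.mk (σ ^ 2) (sq_nonneg _) + NNReal.mk (τ ^ 2) (sq_nonneg _) := by
    apply NNReal.eq
    change Real.sqrt (σ ^ 2 + τ ^ 2) ^ 2 = σ ^ 2 + τ ^ 2
    exact Real.sq_sqrt (by positivity)
  have hR : ∫ x, ϕ (a + Real.sqrt (σ ^ 2 + τ ^ 2) * x) ∂(gaussianReal 0 1) =
      ∫ z, ϕ (a + z) ∂(gaussianReal 0 (NNReal.mk (σ ^ 2) (sq_nonneg _) + NNReal.mk (τ ^ 2) (sq_nonneg _))) := by
    have := CNV_int (Real.sqrt (σ ^ 2 + τ ^ 2)) (fun z => ϕ (a + z)) hψ
    rw [this]
    congr 2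
  have hint : Integrable (fun z => ϕ (a + z))
      (gaussianReal 0 (NNReal.mk (σ ^ 2) (sq_nonneg _) + NNReal.mk (τ ^ 2) (sq_nonneg _))) := by
    rw [← hv]
    have h1 := h ϕ C a (Real.sqrt (σ ^ 2 + τ ^ 2)) hϕ hC
    have h2 := CNV_scale (Real.sqrt (σ ^ 2 + τ ^ 2))
    have h3 : Integrable (fun z => ϕ (a + z))
        ((gaussianReal 0 1).map (fun x => Real.sqrt (σ ^ 2 + τ ^ 2) * x)) := by
      rw [integrable_map_measure hψ.aestronglyMeasurable (by fun_prop)]
      exact h1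
    rw [h2] at h3
    exact h3
  have hconv : gaussianReal 0 (NNReal.mk (σ ^ 2) (sq_nonneg _) + NNReal.mk (τ ^ 2) (sq_nonneg _)) =
      Measure.conv (gaussianReal 0 (NNReal.mk (σ ^ 2) (sq_nonneg _))) (gaussianReal 0 (NNReal.mk (τ ^ 2) (sq_nonneg _))) := by
    rw [gaussianReal_conv_gaussianReal, add_zero]
  rw [hR, hconv]
  rw [hconv] at hint
  rw [integral_conv hint]
  have e1 : ∀ x : ℝ, ∫ y, ϕ (a + x + τ * y) ∂(gaussianReal 0 1) =
      ∫ y, ϕ (a + (x + y)) ∂(gaussianReal 0 (NNReal.mk (τ ^ 2) (sq_nonneg _))) := by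
    intro x
    have := CNV_int τ (fun z => ϕ (a + x + z)) (hϕ.comp (continuous_const.add continuous_id))
    rw [this]
    refine integral_congr_ae (Filter.Eventually.of_forall fun y => ?_)
    simp only [add_assoc]
  have e2 : ∀ x : ℝ, ∫ y, ϕ (a + σ * x + τ * y) ∂(gaussianReal 0 1) =
      ∫ y, ϕ (a + (σ * x + y)) ∂(gaussianReal 0 (NNReal.mk (τ ^ 2) (sq_nonneg _))) := fun x => e1 (σ * x)
  rw [integral_congr_ae (Filter.Eventually.of_forall e2)]
  rw [← CNV_scale σ, integral_map (by fun_prop)]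
  have hc : Continuous (Function.uncurry fun x y : ℝ => ϕ (a + (x + y))) := by
    apply hϕ.comp
    fun_prop
  exact (hc.stronglyMeasurable.integral_prod_right).aestronglyMeasurable

end Pool.Agent.helper43.KG
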