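import Pool.Agent.helper43.KG.Spec

/-!
# Row kg:TAY: Taylor bound for the smoothed power
-/

set_option autoImplicit false

namespace Pool.Agent.helper43.KG

open Finset MeasureTheory ProbabilityTheory
open scoped ENNReal

theorem TAY_nonneg (f f' : ℝ → ℝ) (h0 : f 0 = 0) (hd : ∀ t, HasDerivAt f (f' t) t)
    (hn : ∀ t, 0 ≤ t → 0 ≤ f' t) : ∀ t, 0 ≤ t → 0 ≤ f t := by
  have hm : MonotoneOn f (Set.Ici 0) := by
    apply monotoneOn_of_deriv_nonneg (convex_Ici 0)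
    · exact fun t _ => (hd t).continuousAt.continuousWithinAt
    · exact fun t _ => (hd t).differentiableAt.differentiableWithinAt
    · intro t ht
      rw [interior_Ici] at ht
      rw [(hd t).deriv]
      exact hn t (le_of_lt ht)
  intro t ht
  have := hm (Set.mem_Ici.2 le_rfl) (Set.mem_Ici.2 ht) ht
  rwa [h0] at this

theorem TAY_up (F0 F1 F2 F3 : ℝ → ℝ) (M : ℝ) (h0 : ∀ t, HasDerivAt F0 (F1 t) t)
    (h1 : ∀ t, HasDerivAt F1 (F2 t) t) (h2 : ∀ t, HasDerivAt F2 (F3 t) t)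
    (hM : ∀ t, F3 t ≤ M) : ∀ t, 0 ≤ t →
      F0 t - F0 0 - F1 0 * t - F2 0 / 2 * t ^ 2 ≤ M / 6 * t ^ 3 := by
  have s2 : ∀ t, 0 ≤ t → 0 ≤ M * t - (F2 t - F2 0) := by
    refine TAY_nonneg _ (fun t => M - F3 t) (by ring) ?_ (fun t _ => by linarith [hM t])
    intro t
    have := ((hasDerivAt_id t).const_mul M).sub ((h2 t).sub_const (F2 0))
    refine this.congr_deriv ?_
    ring
  have s1 : ∀ t, 0 ≤ t → 0 ≤ M / 2 * t ^ 2 - (F1 t - F1 0 - F2 0 * t) := by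
    refine TAY_nonneg _ (fun t => M * t - (F2 t - F2 0)) (by ring) ?_ s2
    intro t
    have := ((hasDerivAt_pow 2 t).const_mul (M / 2)).sub
      (((h1 t).sub_const (F1 0)).sub ((hasDerivAt_id t).const_mul (F2 0)))
    refine this.congr_deriv ?_
    push_cast
    ring
  have s0 : ∀ t, 0 ≤ t → 0 ≤ M / 6 * t ^ 3 - (F0 t - F0 0 - F1 0 * t - F2 0 / 2 * t ^ 2) := by
    refine TAY_nonneg _ (fun t => M / 2 * t ^ 2 - (F1 t - F1 0 - F2 0 * t)) (by ring) ?_ s1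
    intro t
    have := ((hasDerivAt_pow 3 t).const_mul (M / 6)).sub
      ((((h0 t).sub_const (F0 0)).sub ((hasDerivAt_id t).const_mul (F1 0))).sub
        ((hasDerivAt_pow 2 t).const_mul (F2 0 / 2)))
    refine this.congr_deriv ?_
    push_cast
    ring
  intro t ht
  linarith [s0 t ht]

theorem TAY_abs (F0 F1 F2 F3 : ℝ → ℝ) (M : ℝ) (h0 : ∀ t, HasDerivAt F0 (F1 t) t)
    (h1 : ∀ t, HasDerivAt F1 (F2 t) t) (h2 : ∀ t, HasDerivAt F2 (F3 t) t)
    (hM : ∀ t, |F3 t| ≤ M) (t : ℝ) (ht : 0 ≤ t) :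
      |F0 t - F0 0 - F1 0 * t - F2 0 / 2 * t ^ 2| ≤ M / 6 * t ^ 3 := by
  rw [abs_le]
  have u1 := TAY_up F0 F1 F2 F3 M h0 h1 h2 (fun t => (abs_le.1 (hM t)).2) t ht
  have u2 := TAY_up (fun t => -F0 t) (fun t => -F1 t) (fun t => -F2 t) (fun t => -F3 t) M
    (fun t => (h0 t).neg) (fun t => (h1 t).neg) (fun t => (h2 t).neg)
    (fun t => by linarith [(abs_le.1 (hM t)).1]) t ht
  constructor
  · have e : -F0 t - -F0 0 - -F1 0 * t - -F2 0 / 2 * t ^ 2 =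
      -(F0 t - F0 0 - F1 0 * t - F2 0 / 2 * t ^ 2) := by ring
    rw [e] at u2
    linarith
  · exact u1

/-- two sided -/
theorem TAY_two (F0 F1 F2 F3 : ℝ → ℝ) (M : ℝ) (h0 : ∀ t, HasDerivAt F0 (F1 t) t)
    (h1 : ∀ t, HasDerivAt F1 (F2 t) t) (h2 : ∀ t, HasDerivAt F2 (F3 t) t)
    (hM : ∀ t, |F3 t| ≤ M) (x h : ℝ) :
      |F0 (x + h) - F0 x - F1 x * h - F2 x / 2 * h ^ 2| ≤ M / 6 * |h| ^ 3 := by
  rcases le_total 0 h with hh | hh
  · have hs : ∀ t : ℝ, HasDerivAt (fun t => x + t) 1 t := fun t => (hasDerivAt_id t).const_add x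
    have := TAY_abs (fun t => F0 (x + t)) (fun t => F1 (x + t)) (fun t => F2 (x + t))
      (fun t => F3 (x + t)) M
      (fun t => ((h0 (x + t)).comp t (hs t)).congr_deriv (mul_one _))
      (fun t => ((h1 (x + t)).comp t (hs t)).congr_deriv (mul_one _))
      (fun t => ((h2 (x + t)).comp t (hs t)).congr_deriv (mul_one _)) (fun t => hM _) h hh
    rw [abs_of_nonneg hh]
    simpa using this
  · have hs : ∀ t : ℝ, HasDerivAt (fun t => x - t) (-1) t := by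
      intro t
      simpa using (hasDerivAt_id t).const_sub x
    have := TAY_abs (fun t => F0 (x - t)) (fun t => -F1 (x - t)) (fun t => F2 (x - t))
      (fun t => -F3 (x - t)) M
      (fun t => ((h0 (x - t)).comp t (hs t)).congr_deriv (by ring))
      (fun t => ((h1 (x - t)).comp t (hs t)).neg.congr_deriv (by ring))
      (fun t => ((h2 (x - t)).comp t (hs t)).congr_deriv (by ring))
      (fun t => by rw [abs_neg]; exact hM _) (-h) (by linarith)
    rw [abs_of_nonpos hh]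
    simp only [sub_zero, sub_neg_eq_add] at this
    have e : F0 (x + h) - F0 x - -F1 x * -h - F2 x / 2 * (-h) ^ 2 =
      F0 (x + h) - F0 x - F1 x * h - F2 x / 2 * h ^ 2 := by ring
    rw [e] at this
    exact this

theorem TAY_u (κ q q' : ℝ) (hκ : 0 < κ) (hq : q' = q - 1) (x : ℝ) :
    HasDerivAt (fun x : ℝ => (κ ^ 2 + x ^ 2) ^ q) (2 * x * q * (κ ^ 2 + x ^ 2) ^ q') x := by
  have h1 : HasDerivAt (fun x : ℝ => κ ^ 2 + x ^ 2) (2 * x) x := by
    simpa using (hasDerivAt_pow 2 x).const_add (κ ^ 2)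
  have h2 : κ ^ 2 + x ^ 2 ≠ 0 := by positivity
  rw [hq]
  exact h1.rpow_const (Or.inl h2)

theorem t_tay : TAY := by
  intro p κ hp1 hp2 hκ
  have hu : ∀ x : ℝ, 0 < κ ^ 2 + x ^ 2 := fun x => by positivity
  refine ⟨?_, ?_, ?_⟩
  · have hc : Continuous (fun x : ℝ => κ ^ 2 + x ^ 2) := by fun_prop
    exact hc.rpow_const (fun x => Or.inl (hu x).ne')
  · refine ⟨1 + κ ^ 2, fun x => ?_⟩
    have h1 : 0 ≤ (κ ^ 2 + x ^ 2) ^ (p / 2) := Real.rpow_nonneg (hu x).le _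
    change |(κ ^ 2 + x ^ 2) ^ (p / 2)| ≤ _
    rw [abs_of_nonneg h1]
    have h2 : (κ ^ 2 + x ^ 2) ^ (p / 2) ≤ 1 + (κ ^ 2 + x ^ 2) := by
      calc (κ ^ 2 + x ^ 2) ^ (p / 2) ≤ (1 + (κ ^ 2 + x ^ 2)) ^ (p / 2) :=
            Real.rpow_le_rpow (hu x).le (by linarith) (by linarith)
        _ ≤ (1 + (κ ^ 2 + x ^ 2)) ^ (1 : ℝ) :=
            Real.rpow_le_rpow_of_exponent_le (by linarith [hu x]) (by linarith)
        _ = 1 + (κ ^ 2 + x ^ 2) := Real.rpow_one _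
    refine h2.trans ?_
    nlinarith [sq_nonneg κ, sq_nonneg x, mul_nonneg (sq_nonneg κ) (sq_nonneg x)]
  · intro x
    have d0 : ∀ t : ℝ, HasDerivAt (fun x : ℝ => (κ ^ 2 + x ^ 2) ^ (p / 2))
        (p * t * (κ ^ 2 + t ^ 2) ^ (p / 2 - 1)) t := by
      intro t
      refine (TAY_u κ (p / 2) (p / 2 - 1) hκ rfl t).congr_deriv ?_
      ring
    have d1 : ∀ t : ℝ, HasDerivAt (fun t : ℝ => p * t * (κ ^ 2 + t ^ 2) ^ (p / 2 - 1))
        (p * (κ ^ 2 + t ^ 2) ^ (p / 2 - 1) + p * (p - 2) * t ^ 2 *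
          (κ ^ 2 + t ^ 2) ^ (p / 2 - 2)) t := by
      intro t
      have := ((hasDerivAt_id t).const_mul p).mul
        (TAY_u κ (p / 2 - 1) (p / 2 - 2) hκ (by ring) t)
      refine this.congr_deriv ?_
      simp only [id]
      ring
    have d2 : ∀ t : ℝ, HasDerivAt (fun t : ℝ => p * (κ ^ 2 + t ^ 2) ^ (p / 2 - 1) +
        p * (p - 2) * t ^ 2 * (κ ^ 2 + t ^ 2) ^ (p / 2 - 2))
        (3 * p * (p - 2) * t * (κ ^ 2 + t ^ 2) ^ (p / 2 - 2) +
          p * (p - 2) * (p - 4) * t ^ 3 * (κ ^ 2 + t ^ 2) ^ (p / 2 - 3)) t := by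
      intro t
      have := ((TAY_u κ (p / 2 - 1) (p / 2 - 2) hκ (by ring) t).const_mul p).add
        (((hasDerivAt_pow 2 t).const_mul (p * (p - 2))).mul
          (TAY_u κ (p / 2 - 2) (p / 2 - 3) hκ (by ring) t))
      refine this.congr_deriv ?_
      push_cast
      ring
    have hM : ∀ t : ℝ, |3 * p * (p - 2) * t * (κ ^ 2 + t ^ 2) ^ (p / 2 - 2) +
        p * (p - 2) * (p - 4) * t ^ 3 * (κ ^ 2 + t ^ 2) ^ (p / 2 - 3)| ≤ 3 * κ ^ (p - 3) := by
      intro t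
      set u : ℝ := κ ^ 2 + t ^ 2 with hudef
      have hu0 : 0 < u := hu t
      have e1 : u ^ (p / 2 - 2) = u ^ (p / 2 - 3) * u := by
        have : p / 2 - 2 = p / 2 - 3 + 1 := by ring
        rw [this, Real.rpow_add hu0, Real.rpow_one]
      have e2 : 3 * p * (p - 2) * t * u ^ (p / 2 - 2) +
          p * (p - 2) * (p - 4) * t ^ 3 * u ^ (p / 2 - 3) =
          -(p * (2 - p) * (3 * κ ^ 2 + (p - 1) * t ^ 2) * (t * u ^ (p / 2 - 3))) := by
        rw [e1, hudef]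
        ring
      have hw : 0 ≤ u ^ (p / 2 - 3) := Real.rpow_nonneg hu0.le _
      have h1 : 0 ≤ p * (2 - p) := mul_nonneg (by linarith) (by linarith)
      have h2 : p * (2 - p) ≤ 1 := by nlinarith [sq_nonneg (p - 1)]
      have h3 : 0 ≤ 3 * κ ^ 2 + (p - 1) * t ^ 2 :=
        add_nonneg (by positivity) (mul_nonneg (by linarith) (sq_nonneg t))
      have h4 : 3 * κ ^ 2 + (p - 1) * t ^ 2 ≤ 3 * u := by
        rw [hudef]
        nlinarith [sq_nonneg t]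
      rw [e2, abs_neg, abs_mul, abs_of_nonneg (mul_nonneg h1 h3), abs_mul, abs_of_nonneg hw]
      have h5 : p * (2 - p) * (3 * κ ^ 2 + (p - 1) * t ^ 2) ≤ 3 * u := by
        calc p * (2 - p) * (3 * κ ^ 2 + (p - 1) * t ^ 2)
            ≤ 1 * (3 * u) := mul_le_mul h2 h4 h3 zero_le_one
          _ = 3 * u := one_mul _
      have h6 : |t| ≤ u ^ (1 / 2 : ℝ) := by
        rw [← Real.sqrt_eq_rpow]
        apply Real.abs_le_sqrt
        rw [hudef]
        nlinarith [sq_nonneg κ]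
      have h7 : u ^ (1 / 2 : ℝ) * u ^ (p / 2 - 3) * u = u ^ ((p - 3) / 2) := by
        have e3 : (p - 3) / 2 = 1 / 2 + (p / 2 - 3) + 1 := by ring
        rw [e3, Real.rpow_add hu0, Real.rpow_add hu0, Real.rpow_one]
      have h8 : u ^ ((p - 3) / 2) ≤ κ ^ (p - 3) := by
        have e4 : κ ^ (p - 3) = (κ ^ 2) ^ ((p - 3) / 2) := by
          rw [← Real.rpow_natCast κ 2, ← Real.rpow_mul hκ.le]
          congr 1
          push_cast
          ring
        rw [e4]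
        apply Real.rpow_le_rpow_of_nonpos (by positivity)
        · rw [hudef]
          nlinarith [sq_nonneg t]
        · linarith
      calc p * (2 - p) * (3 * κ ^ 2 + (p - 1) * t ^ 2) * (|t| * u ^ (p / 2 - 3))
          ≤ (3 * u) * (u ^ (1 / 2 : ℝ) * u ^ (p / 2 - 3)) :=
            mul_le_mul h5 (mul_le_mul_of_nonneg_right h6 hw)
              (mul_nonneg (abs_nonneg t) hw) (by positivity)
        _ = 3 * (u ^ (1 / 2 : ℝ) * u ^ (p / 2 - 3) * u) := by ring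
        _ ≤ 3 * κ ^ (p - 3) := by
            rw [h7]
            linarith
    refine ⟨p * x * (κ ^ 2 + x ^ 2) ^ (p / 2 - 1), (p * (κ ^ 2 + x ^ 2) ^ (p / 2 - 1) +
        p * (p - 2) * x ^ 2 * (κ ^ 2 + x ^ 2) ^ (p / 2 - 2)) / 2, fun h => ?_⟩
    have := TAY_two _ _ _ _ (3 * κ ^ (p - 3)) d0 d1 d2 hM x h
    refine this.trans ?_
    have h9 : 0 ≤ κ ^ (p - 3) := Real.rpow_nonneg hκ.le _
    have h10 : 0 ≤ |h| ^ 3 := by positivity
    nlinarith [mul_nonneg h9 h10]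

end Pool.Agent.helper43.KG
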